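import Pool.Agent.KK.StmtsD

/-!
# Squad KK, row TOU: a closed tour from crossings
-/

set_option autoImplicit false

open scoped BigOperators

namespace Pool.Agent.KK.H25

/-- the order of the classes: up to `q - 1`, down to `0`, up to `i₀` -/
def ord (q i₀ l : ℕ) : ℕ :=
  if l ≤ q - 1 - i₀ then i₀ + l else if l ≤ 2 * (q - 1) - i₀ then 2 * (q - 1) - i₀ - l
  else l - (2 * (q - 1) - i₀)

theorem ord_lt {q i₀ l : ℕ} (hi : i₀ < q) (hl : l ≤ 2 * (q - 1)) : ord q i₀ l < q := by
  unfold ord
  split_ifs <;> omega

theorem ord_zero {q i₀ : ℕ} (hi : i₀ < q) : ord q i₀ 0 = i₀ := by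
  unfold ord
  split_ifs <;> omega

theorem ord_end {q i₀ : ℕ} (hi : i₀ < q) : ord q i₀ (2 * (q - 1)) = i₀ := by
  unfold ord
  split_ifs <;> omega

theorem ord_step {q i₀ l : ℕ} (hi : i₀ < q) (hl : l < 2 * (q - 1)) :
    ord q i₀ l + 1 = ord q i₀ (l + 1) ∨ ord q i₀ (l + 1) + 1 = ord q i₀ l := by
  unfold ord
  split_ifs <;> omega

theorem ord_all {q i₀ i : ℕ} (hi : i₀ < q) (h : i < q) :
    ∃ l ≤ 2 * (q - 1), ord q i₀ l = i := by
  by_cases h1 : i₀ ≤ i
  · refine ⟨i - i₀, by omega, ?_⟩
    unfold ord
    rw [if_pos (by omega)]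
    omega
  · refine ⟨2 * (q - 1) - i₀ - i, by omega, ?_⟩
    unfold ord
    rw [if_neg (by omega), if_pos (by omega)]
    omega

/-- disjoint crossing paths, one for each step -/
theorem paths {V : Type} [Fintype V] [DecidableEq V] (H : Finset (Finset V)) (k C₀ C t : ℕ)
    (S T : ℕ → Set (List V)) (ht : t ≤ k) (hC : k * C₀ + k ≤ C)
    (h : ∀ l < t, Cross H k (S l) (T l) C₀ C) :
    ∃ x : ℕ → List V, (∀ l < t, Seg H k (S l) (T l) (x l) ∧ (x l).length ≤ C₀) ∧
      ∀ l < t, ∀ l' < l, ∀ v ∈ x l, v ∉ x l' := by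
  classical
  -- the steps of the second kind
  let B : Fin t → Prop := fun l => ¬ ∀ W : Finset V, W.card ≤ C →
    ∃ p, Seg H k (S l) (T l) p ∧ p.length ≤ C₀ ∧ ∀ v ∈ p, v ∉ W
  have hB : ∀ l : {l : Fin t // B l}, ∃ Z : Finset V, k ≤ Z.card ∧ ∀ z ∈ Z,
      ∀ W : Finset V, W.card ≤ C → z ∉ W →
        ∃ p, Seg H k (S (l : Fin t)) (T (l : Fin t)) p ∧ p.length ≤ C₀ ∧ ∀ v ∈ p, v ∉ W := by
    intro l
    rcases h l.1 l.1.2 with h1 | h1
    · exact absurd h1 l.2
    · exact h1
  choose Z hZk hZ using hB
  have hcard : Fintype.card {l : Fin t // B l} ≤ t := by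
    refine (Fintype.card_subtype_le _).trans ?_
    rw [Fintype.card_fin]
  obtain ⟨z, hzi, hz⟩ := (Finset.all_card_le_biUnion_card_iff_exists_injective Z).1 (by
    intro s
    rcases s.eq_empty_or_nonempty with h0 | ⟨l, hl⟩
    · rw [h0]
      simp
    · have h1 : s.card ≤ t := (Finset.card_le_univ s).trans hcard
      have h2 : (Z l).card ≤ (s.biUnion Z).card :=
        Finset.card_le_card (Finset.subset_biUnion_of_mem Z hl)
      have h3 := hZk l
      omega)
  let R : Finset V := Finset.univ.image z
  have hR : R.card ≤ t := (Finset.card_image_le).trans (by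
    rw [Finset.card_univ]
    exact hcard)
  have main : ∀ m ≤ t, ∃ x : ℕ → List V,
      (∀ l < m, Seg H k (S l) (T l) (x l) ∧ (x l).length ≤ C₀) ∧
      (∀ l < m, ∀ l' < l, ∀ v ∈ x l, v ∉ x l') ∧
      ∀ l < m, ∀ i : {l : Fin t // B l}, z i ∈ x l → ((i : Fin t) : ℕ) = l := by
    intro m
    induction m with
    | zero =>
      intro _
      exact ⟨fun _ => [], fun l hl => by omega, fun l hl => by omega, fun l hl => by omega⟩
    | succ m ih =>
      intro hm
      obtain ⟨x, hx1, hx2, hx3⟩ := ih (by omega)
      let U : Finset V := (Finset.range m).biUnion fun l => (x l).toFinset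
      have hU : U.card ≤ m * C₀ := by
        refine Finset.card_biUnion_le.trans ?_
        have h1 : ∀ l ∈ Finset.range m, (x l).toFinset.card ≤ C₀ := fun l hl =>
          (List.toFinset_card_le _).trans (hx1 l (Finset.mem_range.1 hl)).2
        refine (Finset.sum_le_sum h1).trans ?_
        rw [Finset.sum_const, Finset.card_range, smul_eq_mul]
      have hUm : ∀ v, v ∉ U → ∀ l < m, v ∉ x l := by
        intro v hv l hl h1
        apply hv
        rw [Finset.mem_biUnion]
        exact ⟨l, Finset.mem_range.2 hl, List.mem_toFinset.2 h1⟩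
      have hmk : m * C₀ ≤ k * C₀ := Nat.mul_le_mul_right _ (by omega)
      -- the next path
      have hnext : ∃ p, Seg H k (S m) (T m) p ∧ p.length ≤ C₀ ∧ (∀ v ∈ p, v ∉ U) ∧
          ∀ i : {l : Fin t // B l}, z i ∈ p → ((i : Fin t) : ℕ) = m := by
        by_cases hb : B ⟨m, by omega⟩
        · let b : {l : Fin t // B l} := ⟨⟨m, by omega⟩, hb⟩
          have hzb : z b ∉ R.erase (z b) ∪ U := by
            rw [Finset.mem_union]
            rintro (h1 | h1)
            · exact (Finset.notMem_erase _ _) h1
            · rw [Finset.mem_biUnion] at h1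
              obtain ⟨l, hl, h2⟩ := h1
              have hl' := Finset.mem_range.1 hl
              have h3 := hx3 l hl' b (List.mem_toFinset.1 h2)
              have h4 : m = l := h3
              omega
          have hW : (R.erase (z b) ∪ U).card ≤ C := by
            refine (Finset.card_union_le _ _).trans ?_
            have h1 : (R.erase (z b)).card ≤ R.card := Finset.card_le_card (Finset.erase_subset _ _)
            omega
          obtain ⟨p, hp1, hp2, hp3⟩ := hZ b (z b) (hz b) _ hW hzb
          refine ⟨p, hp1, hp2, fun v hv h1 => hp3 v hv (Finset.mem_union_right _ h1), ?_⟩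
          intro i hi
          by_contra hne
          have h1 : z i ≠ z b := by
            intro h2
            apply hne
            rw [hzi h2]
          exact hp3 _ hi (Finset.mem_union_left _ (Finset.mem_erase.2
            ⟨h1, Finset.mem_image_of_mem _ (Finset.mem_univ _)⟩))
        · have hb' := not_not.1 hb
          have hW : (R ∪ U).card ≤ C := by
            refine (Finset.card_union_le _ _).trans ?_
            omega
          obtain ⟨p, hp1, hp2, hp3⟩ := hb' _ hW
          refine ⟨p, hp1, hp2, fun v hv h1 => hp3 v hv (Finset.mem_union_right _ h1), ?_⟩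
          intro i hi
          exact absurd (Finset.mem_union_left _ (Finset.mem_image_of_mem _ (Finset.mem_univ _)))
            (hp3 _ hi)
      obtain ⟨p, hp1, hp2, hp3, hp4⟩ := hnext
      refine ⟨Function.update x m p, ?_, ?_, ?_⟩
      · intro l hl
        by_cases hlm : l = m
        · subst hlm
          rw [Function.update_self]
          exact ⟨hp1, hp2⟩
        · rw [Function.update_of_ne hlm]
          exact hx1 l (by omega)
      · intro l hl l' hl' v
        by_cases hlm : l = m
        · subst hlm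
          rw [Function.update_self, Function.update_of_ne (by omega)]
          intro hv
          exact hUm v (hp3 v hv) l' hl'
        · rw [Function.update_of_ne hlm, Function.update_of_ne (by omega)]
          exact hx2 l (by omega) l' hl' v
      · intro l hl i
        by_cases hlm : l = m
        · subst hlm
          rw [Function.update_self]
          exact hp4 i
        · rw [Function.update_of_ne hlm]
          exact hx3 l (by omega) i
  obtain ⟨x, hx1, hx2, -⟩ := main t le_rfl
  exact ⟨x, hx1, hx2⟩

theorem tou : TouStmt := by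
  intro k q C₀ C V _ _ H T i₀ hqk hC h
  have hi := i₀.2
  have hlt : ∀ l, min (ord q i₀ l) (q - 1) < q := fun l => by omega
  let j : ℕ → Fin q := fun l => ⟨min (ord q i₀ l) (q - 1), hlt l⟩
  have hj : ∀ l ≤ 2 * (q - 1), ((j l : Fin q) : ℕ) = ord q i₀ l := by
    intro l hl
    have h1 := ord_lt hi hl
    change min (ord q i₀ l) (q - 1) = _
    omega
  obtain ⟨x, hx1, hx2⟩ := paths H k C₀ C (2 * (q - 1)) (fun l => T (j l)) (fun l => T (j (l + 1)))
    hqk hC (by
      intro l hl
      apply h
      rw [hj l hl.le, hj (l + 1) hl]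
      exact ord_step hi hl)
  refine ⟨2 * (q - 1), j, fun l => x l, ?_, ?_, ?_, ?_, ?_, ?_⟩
  · apply Fin.ext
    rw [hj 0 (by omega), ord_zero hi]
  · apply Fin.ext
    rw [hj _ le_rfl, ord_end hi]
  · intro i
    obtain ⟨l, hl, hl2⟩ := ord_all hi i.2
    exact ⟨l, hl, Fin.ext (by rw [hj l hl, hl2])⟩
  · intro l
    exact (hx1 l l.2).1
  · rw [List.nodup_flatten]
    refine ⟨?_, ?_⟩
    · intro p hp
      rw [List.mem_ofFn] at hp
      obtain ⟨l, rfl⟩ := hp
      exact (hx1 l l.2).1.1.1
    · rw [List.pairwise_ofFn]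
      intro l l' hll v hv hv'
      exact hx2 l' l'.2 l hll v hv' hv
  · rw [List.length_flatten]
    have h1 := List.sum_le_card_nsmul ((List.ofFn fun l : Fin (2 * (q - 1)) => x l).map
      List.length) C₀ (by
        intro c hc
        rw [List.mem_map] at hc
        obtain ⟨p, hp, rfl⟩ := hc
        rw [List.mem_ofFn] at hp
        obtain ⟨l, rfl⟩ := hp
        exact (hx1 l l.2).2)
    rw [List.length_map, List.length_ofFn, smul_eq_mul] at h1
    exact h1.trans (Nat.mul_le_mul_right _ hqk)

end Pool.Agent.KK.H25
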